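import Pool.Agent.V11247.EqG.Final

/-!
# Equality testing on graphs costs the maximum fractional cut packing
-/

set_option autoImplicit false

namespace Pool.Agent.Results.MP_bf2f06_lc.CutPacking

open Filter Topology Pool.Agent.V11247.EqT Pool.Agent.V11247.EqG

/-- **Result.** `f(G) = fc(G)` for every connected graph `G` with at least two vertices. -/
theorem result {V : Type} [Fintype V] [DecidableEq V] (G : SimpleGraph V) (hG : G.Connected)
    (hV : 2 ≤ Fintype.card V) :
    IsGreatest {x : ℝ | ∃ g : Cut V → ℝ, IsPacking G g ∧ ∑ C, g C = x} (fc G) ∧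
    Tendsto (fun n : ℕ => (eqCost G (Fin n → Bool) : ℝ) / n) atTop (𝓝 (fc G)) :=
  ⟨fc_isGreatest G, rate hG hV⟩

end Pool.Agent.Results.MP_bf2f06_lc.CutPacking
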